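import Pool.Agent.Lib_helper87.RO.GoodB

/-!
# The stages are eventually large
-/

set_option autoImplicit false

namespace Pool.Agent.RO

open Filter

theorem large_poly (k : ℕ) : ∃ A : ℕ, ∀ a : ℕ, A ≤ a → tb a + tb a ^ k + 4 < 2 ^ a := by
  have h := tendsto_pow_const_div_const_pow_of_one_lt (k + 2) (r := (2 : ℝ)) (by norm_num)
  have h1 : ∀ᶠ n : ℕ in atTop, ((n : ℝ) ^ (k + 2) / 2 ^ n) < 1 / 64 ^ (k + 2) :=
    h.eventually (gt_mem_nhds (by positivity))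
  obtain ⟨A, hA⟩ := eventually_atTop.1 h1
  refine ⟨A + 1, fun a ha => ?_⟩
  have h2 := hA a (by omega)
  rw [div_lt_div_iff₀ (by positivity) (by positivity), one_mul, ← mul_pow] at h2
  have h3 : (a * 64) ^ (k + 2) < 2 ^ a := by exact_mod_cast h2
  refine lt_of_le_of_lt ?_ h3
  have h4 : tb a ≤ a * 64 := by unfold tb; omega
  have h5 : tb a ^ k ≤ (a * 64) ^ k := Nat.pow_le_pow_left h4 k
  have h6 : 1 ≤ (a * 64) ^ k := Nat.one_le_pow _ _ (by omega)
  have h7 : (a * 64) ^ (k + 2) = (a * 64) ^ k * ((a * 64) * (a * 64)) := by ring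
  rw [h7]
  have h8 : 64 ≤ a * 64 := by omega
  nlinarith [Nat.mul_le_mul h6 h4, Nat.mul_le_mul h8 h8]

/-- **The stages are eventually large.** -/
theorem large_all (k : ℕ) : ∃ J, Large k J := by
  obtain ⟨A, hA⟩ := large_poly k
  refine ⟨A + 2 * (6 * k + 14), fun s hs => ?_⟩
  have hst := gst_ge s
  refine ⟨hA (st s) (by omega), ?_⟩
  show tb (2 ^ 2 ^ (st s / 2)) ^ (k + 1) * 2 ^ (s + 2) ≤ 2 ^ 2 ^ st s
  set X := 2 ^ (st s / 2) with hX
  have h1 : st s / 2 < X := Nat.lt_two_pow_self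
  have h2 : 6 * k + 14 ≤ X := by omega
  have h3 : tb (2 ^ X) ≤ 2 ^ (X + 6) := by
    have : 1 ≤ 2 ^ X := Nat.one_le_two_pow
    have h4 : 2 ^ (X + 6) = 64 * 2 ^ X := by ring
    unfold tb
    omega
  have h5 : X * X ≤ 2 ^ st s := by
    rw [hX, ← pow_add]
    exact Nat.pow_le_pow_right (by norm_num) (by omega)
  calc tb (2 ^ X) ^ (k + 1) * 2 ^ (s + 2)
      ≤ (2 ^ (X + 6)) ^ (k + 1) * 2 ^ (s + 2) :=
        Nat.mul_le_mul_right _ (Nat.pow_le_pow_left h3 _)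
    _ = 2 ^ ((X + 6) * (k + 1) + (s + 2)) := by rw [← pow_mul, ← pow_add]
    _ ≤ 2 ^ 2 ^ st s := by
        refine Nat.pow_le_pow_right (by norm_num) (le_trans ?_ h5)
        have h6 : s + 2 ≤ 2 * X := by omega
        nlinarith

end Pool.Agent.RO
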