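import Pool.Agent.Lib_helper87.RO.LargeK
import Pool.Agent.Lib_helper78.RO.F.LOC

/-!
# Almost every oracle is good
-/

set_option autoImplicit false

namespace Pool.Agent.RO

open Pool.Agent.CK Pool.Agent.RF Pool.Agent.CKP Pool.Agent.ROM MeasureTheory

theorem loc_pr : Loc := fun S T s O O' hag h => (acc_local (S := S) (T := T) (s := s) hag).1 h

theorem touch_pr : Touch := by
  intro S T s O h
  obtain ⟨Q, h1, h2⟩ := acc_touch h
  exact ⟨Q, h1, fun O' hO' => h2 O' fun x hx => (hO' x hx).symm⟩

/-- **Almost every oracle is good.** -/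
theorem good_all (ν : List Bool → Measure Bool) [∀ x, IsProbabilityMeasure (ν x)]
    (hν : ∀ w : List Bool, ν (true :: w) {true} = 2⁻¹) :
    ∀ᵐ O ∂(Measure.infinitePi ν), Good O :=
  good_ae ν hν loc_pr touch_pr large_all

end Pool.Agent.RO
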