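import Pool.Agent.Lib_helper87.RO.MeasB

/-!
# Random oracles: the Borel-Cantelli part
-/

set_option autoImplicit false

namespace Pool.Agent.ROM

open MeasureTheory ProbabilityTheory
open scoped ENNReal

variable {ι : Type}

variable (ν : ι → Measure Bool) [∀ i, IsProbabilityMeasure (ν i)]

theorem none_full [DecidableEq ι] {κ : Type} [DecidableEq κ] (b : κ → Finset ι) (T : Finset κ)
    (hd : ∀ t ∈ T, ∀ t' ∈ T, t ≠ t' → Disjoint (b t) (b t'))
    (hν : ∀ t ∈ T, ∀ i ∈ b t, ν i {true} = 2⁻¹) :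
    Measure.infinitePi ν {ω | ∀ t ∈ T, ¬ Full (b t) ω} = ∏ t ∈ T, (1 - 2⁻¹ ^ (b t).card) := by
  classical
  induction T using Finset.induction_on with
  | empty => simp
  | insert a T ha ih =>
    have h1 : {ω : ι → Bool | ∀ t ∈ insert a T, ¬ Full (b t) ω}
        = {ω | ¬ Full (b a) ω ∧ ∀ t ∈ T, ¬ Full (b t) ω} := by
      ext ω
      simp
    have h2 : DepOn (T.biUnion b) (fun ω => ∀ t ∈ T, ¬ Full (b t) ω) := by
      refine DepOn.forall fun t => ?_
      intro ω ω' hw h ht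
      refine mt ((depOn_full (b t)).iff ?_).2 (h ht)
      intro i hi
      exact hw i (Finset.mem_biUnion.2 ⟨t, ht, hi⟩)
    have h3 : Disjoint (b a) (T.biUnion b) := by
      rw [Finset.disjoint_biUnion_right]
      intro t ht
      exact hd a (Finset.mem_insert_self _ _) t (Finset.mem_insert_of_mem ht)
        (fun h => ha (h ▸ ht))
    rw [h1, indep ν h3 (depOn_full (b a)).not h2, Finset.prod_insert ha,
      ih (fun t ht t' ht' => hd t (Finset.mem_insert_of_mem ht) t' (Finset.mem_insert_of_mem ht'))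
        (fun t ht => hν t (Finset.mem_insert_of_mem ht))]
    congr 1
    have h4 : {ω : ι → Bool | ¬ Full (b a) ω} = {ω | Full (b a) ω}ᶜ := rfl
    rw [h4, prob_compl_eq_one_sub (depOn_full (b a)).measurableSet,
      measure_full ν (hν a (Finset.mem_insert_self _ _))]

theorem one_sub_pow_le (n j : ℕ) :
    ((1 : ℝ≥0∞) - 2⁻¹ ^ (n + j)) ^ (2 ^ n) ≤ ENNReal.ofReal (Real.exp (-(1 / 2) ^ j)) := by
  have h1 : (1 : ℝ≥0∞) - 2⁻¹ ^ (n + j) = ENNReal.ofReal (1 - (1 / 2) ^ (n + j)) := by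
    rw [ENNReal.ofReal_sub _ (by positivity), ENNReal.ofReal_one, ENNReal.ofReal_pow (by norm_num)]
    congr 2
    rw [one_div, ENNReal.ofReal_inv_of_pos (by norm_num)]
    norm_num
  have h3 : (0 : ℝ) ≤ 1 - (1 / 2) ^ (n + j) := by
    have : ((1 : ℝ) / 2) ^ (n + j) ≤ 1 := pow_le_one₀ (by norm_num) (by norm_num)
    linarith
  rw [h1, ← ENNReal.ofReal_pow h3]
  refine ENNReal.ofReal_le_ofReal ?_
  calc (1 - (1 / 2 : ℝ) ^ (n + j)) ^ (2 ^ n) ≤ (Real.exp (-(1 / 2) ^ (n + j))) ^ (2 ^ n) := by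
        refine pow_le_pow_left₀ h3 ?_ _
        have := Real.add_one_le_exp (-(1 / 2 : ℝ) ^ (n + j))
        linarith
    _ = Real.exp (-(1 / 2) ^ j) := by
        rw [← Real.exp_nat_mul]
        congr 1
        rw [pow_add]
        push_cast
        have : ((2 : ℝ) ^ n) * (1 / 2) ^ n = 1 := by
          rw [← mul_pow]; norm_num
        calc (2 : ℝ) ^ n * -((1 / 2) ^ n * (1 / 2) ^ j)
            = -((2 ^ n * (1 / 2) ^ n) * (1 / 2) ^ j) := by ring
          _ = _ := by rw [this, one_mul]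

/-- **Borel-Cantelli**: at a fixed level `j` infinitely many stages have a full block. -/
theorem infinitely_often [DecidableEq ι] (n : ℕ → ℕ) (j s1 : ℕ)
    (blk : (s : ℕ) → Fin (2 ^ n s) → Finset ι)
    (hcard : ∀ s y, s1 ≤ s → (blk s y).card = n s + j)
    (hν : ∀ s y, s1 ≤ s → ∀ i ∈ blk s y, ν i {true} = 2⁻¹)
    (hd : ∀ s, s1 ≤ s → Pairwise fun y y' => Disjoint (blk s y) (blk s y'))
    (hd' : ∀ s s' y y', s1 ≤ s → s < s' → Disjoint (blk s y) (blk s' y')) :
    ∀ᵐ ω ∂(Measure.infinitePi ν), ∀ s0, ∃ s, s0 ≤ s ∧ ∃ y, Full (blk s y) ω := by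
  classical
  set μ := Measure.infinitePi ν with hμ
  have key : ∀ s0, s1 ≤ s0 → ∀ᵐ ω ∂μ, ∃ s, s0 ≤ s ∧ ∃ y, Full (blk s y) ω := by
    intro s0 hs0
    rw [ae_iff]
    set ρ : ℝ≥0∞ := ENNReal.ofReal (Real.exp (-(1 / 2) ^ j)) with hρ
    have hρ1 : ρ < 1 := by
      rw [hρ, ENNReal.ofReal_lt_one, Real.exp_lt_one_iff]
      have : (0 : ℝ) < (1 / 2) ^ j := by positivity
      linarith
    have hle : ∀ m : ℕ, μ {ω | ¬ ∃ s, s0 ≤ s ∧ ∃ y, Full (blk s y) ω} ≤ ρ ^ m := by
      intro m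
      let T : Finset (Σ s : ℕ, Fin (2 ^ n s)) :=
        (Finset.Ico s0 (s0 + m)).sigma fun s => Finset.univ
      let b : (Σ s : ℕ, Fin (2 ^ n s)) → Finset ι := fun t => blk t.1 t.2
      have hT : ∀ t ∈ T, s0 ≤ t.1 := by
        intro t ht
        rw [Finset.mem_sigma, Finset.mem_Ico] at ht
        exact ht.1.1
      have h1 := none_full ν b T ?_ ?_
      · calc μ {ω | ¬ ∃ s, s0 ≤ s ∧ ∃ y, Full (blk s y) ω}
            ≤ μ {ω | ∀ t ∈ T, ¬ Full (b t) ω} := by
              refine measure_mono ?_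
              intro ω hω t ht hfull
              exact hω ⟨t.1, hT t ht, t.2, hfull⟩
          _ = ∏ t ∈ T, (1 - 2⁻¹ ^ (b t).card) := h1
          _ = ∏ s ∈ Finset.Ico s0 (s0 + m), ∏ y : Fin (2 ^ n s), (1 - 2⁻¹ ^ (blk s y).card) :=
              Finset.prod_sigma _ _ _
          _ ≤ ∏ s ∈ Finset.Ico s0 (s0 + m), ρ := by
              refine Finset.prod_le_prod' fun s hs => ?_
              rw [Finset.mem_Ico] at hs
              have : ∀ y : Fin (2 ^ n s), (1 : ℝ≥0∞) - 2⁻¹ ^ (blk s y).card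
                  = 1 - 2⁻¹ ^ (n s + j) := fun y => by rw [hcard s y (hs0.trans hs.1)]
              simp only [this, Finset.prod_const, Finset.card_univ, Fintype.card_fin]
              exact one_sub_pow_le (n s) j
          _ = ρ ^ m := by
              rw [Finset.prod_const, Nat.card_Ico]
              congr 1
              omega
      · intro t ht t' ht' hne
        rcases lt_trichotomy t.1 t'.1 with h | h | h
        · exact hd' _ _ _ _ (hs0.trans (hT t ht)) h
        · obtain ⟨s, y⟩ := t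
          obtain ⟨s', y'⟩ := t'
          simp only at h
          subst h
          have : y ≠ y' := fun h => hne (by rw [h])
          exact hd s (hs0.trans (hT _ ht)) this
        · exact (hd' _ _ _ _ (hs0.trans (hT t' ht')) h).symm
      · intro t ht
        exact hν t.1 t.2 (hs0.trans (hT t ht))
    have h0 : Filter.Tendsto (fun m : ℕ => ρ ^ m) Filter.atTop (nhds 0) :=
      ENNReal.tendsto_pow_atTop_nhds_zero_of_lt_one hρ1
    exact le_antisymm (ge_of_tendsto' h0 hle) zero_le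
  have hall : ∀ᵐ ω ∂μ, ∀ s0, s1 ≤ s0 → ∃ s, s0 ≤ s ∧ ∃ y, Full (blk s y) ω := by
    rw [ae_all_iff]
    intro s0
    by_cases h : s1 ≤ s0
    · exact (key s0 h).mono fun ω hω _ => hω
    · exact Filter.Eventually.of_forall fun ω h' => (h h').elim
  filter_upwards [hall] with ω hω s0
  obtain ⟨s, hs, hy⟩ := hω (max s0 s1) (le_max_right _ _)
  exact ⟨s, (le_max_left _ _).trans hs, hy⟩

end Pool.Agent.ROM
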