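import Pool.Agent.Lib_helper78.RO.Defs
import Pool.Agent.Lib_helper78.RF.F.ENC
import Pool.Agent.Lib_helper87.RO.MeasC

/-!
# Random oracles: almost every oracle is good
-/

set_option autoImplicit false

namespace Pool.Agent.RO

open Pool.Agent.CK Pool.Agent.RF Pool.Agent.CKP Pool.Agent.ROM MeasureTheory
open scoped ENNReal

/-! ## Stages -/

theorem gst_lt (s : ℕ) : st s < st (s + 1) := by
  show st s < 2 ^ 2 ^ (st s / 2)
  have h1 : st s / 2 < 2 ^ (st s / 2) := Nat.lt_two_pow_self
  have h2 : 2 ^ (st s / 2 + 1) ≤ 2 ^ 2 ^ (st s / 2) := Nat.pow_le_pow_right (by norm_num) h1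
  rw [pow_succ] at h2
  omega

theorem gst_strictMono : StrictMono st := strictMono_nat_of_lt_succ gst_lt

theorem gst_ge (s : ℕ) : s + 8 ≤ st s := by
  induction s with
  | zero => exact le_refl 8
  | succ s ih =>
    have := gst_lt s
    omega

theorem gst_lt_pow (s : ℕ) : s < 2 ^ st s := by
  have h1 := gst_ge s
  have h2 : st s < 2 ^ st s := Nat.lt_two_pow_self
  omega

/-- the length of the strings of stage `s` and level `j` -/
def nS (s j : ℕ) : ℕ := 2 ^ (st s + 1) - 1 - j

theorem nS_add (s j : ℕ) (h : j ≤ s) : nS s j + 1 + j = 2 ^ (st s + 1) := by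
  unfold nS
  have h1 := gst_lt_pow s
  have h2 : 2 ^ (st s + 1) = 2 * 2 ^ st s := by rw [pow_succ]; ring
  omega

theorem pow_le_nS (s j : ℕ) (h : j ≤ s) : 2 ^ st s ≤ nS s j := by
  have h0 := nS_add s j h
  have h1 := gst_lt_pow s
  have h2 : 2 ^ (st s + 1) = 2 * 2 ^ st s := by rw [pow_succ]; ring
  omega

/-! ## Finite sets of strings -/

/-- all strings of length `m` -/
noncomputable def strN (m : ℕ) : Finset (List Bool) :=
  (Finset.univ : Finset (List.Vector Bool m)).map ⟨List.Vector.toList, List.Vector.toList_injective⟩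

theorem mem_strN {m : ℕ} {x : List Bool} : x ∈ strN m ↔ x.length = m := by
  unfold strN
  rw [Finset.mem_map]
  constructor
  · rintro ⟨v, -, rfl⟩
    exact v.toList_length
  · intro h
    exact ⟨⟨x, h⟩, Finset.mem_univ _, rfl⟩

theorem card_strN (m : ℕ) : (strN m).card = 2 ^ m := by
  unfold strN
  rw [Finset.card_map, Finset.card_univ, card_vector, Fintype.card_bool]

/-- all strings of length at most `l` -/
noncomputable def strL (l : ℕ) : Finset (List Bool) := (Finset.range (l + 1)).biUnion strN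

theorem mem_strL {l : ℕ} {x : List Bool} : x ∈ strL l ↔ x.length ≤ l := by
  unfold strL
  rw [Finset.mem_biUnion]
  constructor
  · rintro ⟨m, hm, hx⟩
    rw [Finset.mem_range] at hm
    rw [mem_strN] at hx
    omega
  · intro h
    exact ⟨x.length, Finset.mem_range.2 (by omega), mem_strN.2 rfl⟩

theorem card_strL (l : ℕ) : (strL l).card + 1 = 2 ^ (l + 1) := by
  unfold strL
  rw [Finset.card_biUnion]
  · simp only [card_strN]
    have := Nat.geomSum_eq (m := 2) (le_refl 2) (l + 1)
    rw [this]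
    have h1 : 0 < 2 ^ (l + 1) := by positivity
    simp
    omega
  · intro a _ b _ hab
    rw [Function.onFun, Finset.disjoint_left]
    intro x hx hx'
    rw [mem_strN] at hx hx'
    exact hab (hx.symm.trans hx')

/-- the block of `y` -/
noncomputable def blkS (l : ℕ) (y : List Bool) : Finset (List Bool) :=
  (strL l).image fun w => true :: (w ++ y)

theorem mem_blkS {l : ℕ} {y x : List Bool} :
    x ∈ blkS l y ↔ ∃ w : List Bool, w.length ≤ l ∧ true :: (w ++ y) = x := by
  unfold blkS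
  rw [Finset.mem_image]
  simp only [mem_strL]

theorem card_blkS (l : ℕ) (y : List Bool) : (blkS l y).card + 1 = 2 ^ (l + 1) := by
  unfold blkS
  rw [Finset.card_image_of_injective, card_strL]
  intro w w' h
  simpa using h

theorem bad_iff (O : Lang) (l : ℕ) (y : List Bool) : Bad O l y ↔ Full (blkS l y) O := by
  unfold Bad Full
  constructor
  · intro h x hx
    obtain ⟨w, hw, rfl⟩ := mem_blkS.1 hx
    exact h w hw
  · intro h w hw
    exact h _ (mem_blkS.2 ⟨w, hw, rfl⟩)

theorem blkS_disjoint {l l' : ℕ} {y y' : List Bool} (h : y.length = y'.length) (hne : y ≠ y') :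
    Disjoint (blkS l y) (blkS l' y') := by
  rw [Finset.disjoint_left]
  intro x hx hx'
  obtain ⟨w, -, rfl⟩ := mem_blkS.1 hx
  obtain ⟨w', -, h'⟩ := mem_blkS.1 hx'
  have h1 : w' ++ y' = w ++ y := by simpa using h'
  exact hne (List.append_inj' h1 h.symm).2.symm

/-- enumeration of the strings of length `m` -/
noncomputable def enumS (m : ℕ) (i : Fin (2 ^ m)) : List Bool :=
  ((strN m).equivFinOfCardEq (card_strN m)).symm i

theorem enumS_length (m : ℕ) (i : Fin (2 ^ m)) : (enumS m i).length = m :=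
  mem_strN.1 (((strN m).equivFinOfCardEq (card_strN m)).symm i).2

theorem enumS_inj (m : ℕ) : Function.Injective (enumS m) := fun i i' h =>
  ((strN m).equivFinOfCardEq (card_strN m)).symm.injective (Subtype.ext h)

theorem enumS_surj {m : ℕ} {y : List Bool} (h : y.length = m) : ∃ i, enumS m i = y := by
  refine ⟨((strN m).equivFinOfCardEq (card_strN m)) ⟨y, mem_strN.2 h⟩, ?_⟩
  unfold enumS
  rw [Equiv.symm_apply_apply]

/-! ## The number of theories -/

theorem tsum_str : ∑' x : List Bool, ((2⁻¹ : ℝ≥0∞) ^ 2) ^ x.length = 2 := by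
  have h1 := (Equiv.sigmaFiberEquiv (List.length (α := Bool))).tsum_eq
    (fun x : List Bool => ((2⁻¹ : ℝ≥0∞) ^ 2) ^ x.length)
  rw [← h1, ENNReal.tsum_sigma']
  have h2 : ∀ n : ℕ, ∑' x : {x : List Bool // x.length = n},
      ((2⁻¹ : ℝ≥0∞) ^ 2) ^ ((Equiv.sigmaFiberEquiv (List.length (α := Bool))) ⟨n, x⟩).length
        = 2⁻¹ ^ n := by
    intro n
    have h3 : ∀ x : {x : List Bool // x.length = n},
        ((2⁻¹ : ℝ≥0∞) ^ 2) ^ ((Equiv.sigmaFiberEquiv (List.length (α := Bool))) ⟨n, x⟩).length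
          = (2⁻¹ ^ 2) ^ n := by
      rintro ⟨x, rfl⟩
      rfl
    simp only [h3]
    have : Fintype {x : List Bool // x.length = n} := inferInstanceAs
      (Fintype (List.Vector Bool n))
    rw [tsum_fintype, Finset.sum_const, Finset.card_univ]
    have h4 : Fintype.card {x : List Bool // x.length = n} = 2 ^ n := by
      have := card_vector (α := Bool) n
      rw [Fintype.card_bool] at this
      rw [← this]
      exact Fintype.card_congr (Equiv.refl _)
    rw [h4, nsmul_eq_mul]
    push_cast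
    rw [← mul_pow, pow_two, ← mul_assoc, ENNReal.mul_inv_cancel (by norm_num) (by norm_num),
      one_mul]
  simp only [h2]
  rw [ENNReal.tsum_geometric, ENNReal.one_sub_inv_two, inv_inv]

theorem tsum_wt : ∑' T : Th, (2⁻¹ : ℝ≥0∞) ^ wt T ≤ 4 := by
  have h0 : ∑' T : Th, (2⁻¹ : ℝ≥0∞) ^ wt T
      = ∑' c : Cmd, ∑' k : ℕ, ((2⁻¹ : ℝ≥0∞) ^ 2) ^ (cEnc c).length * 2⁻¹ ^ k := by
    rw [← ENNReal.tsum_prod]
    refine tsum_congr fun T => ?_
    unfold wt
    rw [pow_add, pow_mul]
  rw [h0]
  have h1 : ∑' k : ℕ, (2⁻¹ : ℝ≥0∞) ^ k = 2 := by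
    rw [ENNReal.tsum_geometric, ENNReal.one_sub_inv_two, inv_inv]
  simp only [ENNReal.tsum_mul_left, h1]
  rw [ENNReal.tsum_mul_right]
  have h2 : ∑' c : Cmd, ((2⁻¹ : ℝ≥0∞) ^ 2) ^ (cEnc c).length
      ≤ ∑' x : List Bool, ((2⁻¹ : ℝ≥0∞) ^ 2) ^ x.length :=
    ENNReal.tsum_comp_le_tsum_of_injective cEnc_inj
      (fun x : List Bool => ((2⁻¹ : ℝ≥0∞) ^ 2) ^ x.length)
  rw [tsum_str] at h2
  calc _ ≤ (2 : ℝ≥0∞) * 2 := mul_le_mul_left h2 _
    _ = 4 := by norm_num

theorem countable_cmd : Countable Cmd := cEnc_inj.countable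

end Pool.Agent.RO
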