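import Pool.Agent.Lib_helper87.RO.GoodA

/-!
# Random oracles: almost every oracle is good (end)
-/

set_option autoImplicit false

namespace Pool.Agent.RO

open Pool.Agent.CK Pool.Agent.RF Pool.Agent.CKP Pool.Agent.ROM MeasureTheory
open scoped ENNReal

/-- locality of `AccS` -/
def Loc : Prop := ∀ (S T : Th) (s : ℕ) (O O' : Lang),
  (∀ x : List Bool, x.length < tb (st (s + 1)) + tb (st (s + 1)) ^ S.2 + 4 → O x = O' x) →
    AccS O S T s → AccS O' S T s

/-- certificates of `AccS` -/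
def Touch : Prop := ∀ (S T : Th) (s : ℕ) (O : Lang), AccS O S T s →
  ∃ Q : Finset (List Bool), Q.card ≤ tb (st (s + 1)) ^ (S.2 + 1) ∧
    ∀ O' : Lang, (∀ x ∈ Q, O x = O' x) → AccS O' S T s

variable (ν : List Bool → Measure Bool) [∀ x, IsProbabilityMeasure (ν x)]

theorem good_bad (hν : ∀ w : List Bool, ν (true :: w) {true} = 2⁻¹) (j : ℕ) :
    ∀ᵐ O ∂(Measure.infinitePi ν), ∀ s0, ∃ s, s0 ≤ s ∧ ∃ y : List Bool,
      y.length + 1 + j = 2 ^ (st s + 1) ∧ Bad O (st s) y := by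
  have h := infinitely_often ν (fun s => nS s j) j j
    (fun s i => blkS (st s) (enumS (nS s j) i)) ?_ ?_ ?_ ?_
  · filter_upwards [h] with O hO s0
    obtain ⟨s, hs, i, hi⟩ := hO (max s0 j)
    refine ⟨s, (le_max_left _ _).trans hs, enumS (nS s j) i, ?_, (bad_iff _ _ _).2 hi⟩
    rw [enumS_length]
    exact nS_add s j ((le_max_right _ _).trans hs)
  · intro s y hs
    have h1 := card_blkS (st s) (enumS (nS s j) y)
    have h2 := nS_add s j hs
    omega
  · intro s y _ i hi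
    obtain ⟨w, -, rfl⟩ := mem_blkS.1 hi
    exact hν _
  · intro s _ y y' hne
    refine blkS_disjoint ?_ (fun h => hne (enumS_inj _ h))
    rw [enumS_length, enumS_length]
  · intro s s' y y' hs hlt
    rw [Finset.disjoint_left]
    intro x hx hx'
    obtain ⟨w, hw, rfl⟩ := mem_blkS.1 hx
    obtain ⟨w', hw', h'⟩ := mem_blkS.1 hx'
    have h1 := congrArg List.length h'
    simp only [List.length_cons, List.length_append, enumS_length] at h1
    have h2 := nS_add s j hs
    have h3 := nS_add s' j (hs.trans hlt.le)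
    have h4 : st s + 1 ≤ st s' := gst_strictMono hlt
    have h5 : 2 ^ (st s + 1 + 1) ≤ 2 ^ (st s' + 1) := Nat.pow_le_pow_right (by norm_num) (by omega)
    have h6 : st s + 1 < 2 ^ (st s + 1) := Nat.lt_two_pow_self
    have h7 : 2 ^ (st s + 1 + 1) = 2 * 2 ^ (st s + 1) := by rw [pow_succ]; ring
    omega

theorem good_ev_one (hν : ∀ w : List Bool, ν (true :: w) {true} = 2⁻¹) (hloc : Loc)
    (htouch : Touch) (S T : Th) (j0 : ℕ) (hlarge : Large S.2 j0) :
    Measure.infinitePi ν {O | Ev S T j0 O} ≤ 4 * 2⁻¹ ^ j0 := by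
  classical
  have h := betting ν (fun s O => AccS O S T s)
    (fun s => strL (tb (st (s + 1)) + tb (st (s + 1)) ^ S.2 + 3)) nS
    (fun s j i => blkS (st s) (enumS (nS s j) i)) (fun s => tb (st (s + 1)) ^ (S.2 + 1)) j0
    ?_ ?_ ?_ ?_ ?_ ?_ ?_
  · refine (measure_mono ?_).trans h
    rintro O ⟨s, j, y, hj, hs, hy, hbad, hpl, hacc⟩
    have hlen : y.length = nS s j := by
      have := nS_add s j hs
      omega
    obtain ⟨i, hi⟩ := enumS_surj hlen
    refine ⟨j, hj, s, hs, fun s' h1 h2 => hpl s' h1 h2, ⟨i, ?_⟩, hacc⟩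
    rw [hi]
    exact (bad_iff _ _ _).1 hbad
  · intro s _ O O' hw hO
    refine hloc S T s O O' (fun x hx => hw x (mem_strL.2 (by omega))) hO
  · intro s j s' y hj hs _ hs'
    rw [Finset.disjoint_left]
    intro x hx hx'
    rw [mem_strL] at hx
    obtain ⟨w, -, rfl⟩ := mem_blkS.1 hx'
    simp only [List.length_cons, List.length_append, enumS_length] at hx
    have h1 := (hlarge s (hj.trans hs)).1
    have h2 := pow_le_nS s j hs
    have h3 : st (s' + 1) ≤ st s := gst_strictMono.monotone hs'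
    have h5 : tb (st (s' + 1)) ≤ tb (st s) := by unfold tb; omega
    have h4 : tb (st (s' + 1)) ^ S.2 ≤ tb (st s) ^ S.2 := Nat.pow_le_pow_left h5 _
    omega
  · intro s _ O hO
    exact htouch S T s O hO
  · intro s j _ _ y y' hne
    refine blkS_disjoint ?_ (fun h => hne (enumS_inj _ h))
    rw [enumS_length, enumS_length]
  · intro s j y _ hs
    have h1 := card_blkS (st s) (enumS (nS s j) y)
    have h2 := nS_add s j hs
    omega
  · intro s j y _ _ i hi
    obtain ⟨w, -, rfl⟩ := mem_blkS.1 hi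
    exact hν _
  · intro s j hj hs
    exact ((hlarge s (hj.trans hs)).2).trans
      (Nat.pow_le_pow_right (by norm_num) (pow_le_nS s j hs))

theorem large_mono {k J J' : ℕ} (h : Large k J) (hJ : J ≤ J') : Large k J' :=
  fun s hs => h s (hJ.trans hs)

theorem good_ev (hν : ∀ w : List Bool, ν (true :: w) {true} = 2⁻¹) (hloc : Loc)
    (htouch : Touch) (hlarge : ∀ k, ∃ J, Large k J) (S : Th) (J0 : ℕ) :
    ∀ᵐ O ∂(Measure.infinitePi ν), ∃ J, J0 ≤ J ∧ ∀ T : Th, ¬ Ev S T (J + wt T) O := by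
  have hc : Countable Cmd := countable_cmd
  rw [ae_iff]
  obtain ⟨J1, hJ1⟩ := hlarge S.2
  have hle : ∀ m : ℕ, Measure.infinitePi ν
      {O | ¬ ∃ J, J0 ≤ J ∧ ∀ T : Th, ¬ Ev S T (J + wt T) O} ≤ 16 * 2⁻¹ ^ m := by
    intro m
    set J := max J0 (max J1 m) with hJ
    calc Measure.infinitePi ν {O | ¬ ∃ J, J0 ≤ J ∧ ∀ T : Th, ¬ Ev S T (J + wt T) O}
        ≤ Measure.infinitePi ν (⋃ T : Th, {O | Ev S T (J + wt T) O}) := by
          refine measure_mono ?_
          intro O hO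
          by_contra h
          apply hO
          refine ⟨J, le_max_left _ _, fun T hT => h (Set.mem_iUnion.2 ⟨T, hT⟩)⟩
      _ ≤ ∑' T : Th, Measure.infinitePi ν {O | Ev S T (J + wt T) O} := measure_iUnion_le _
      _ ≤ ∑' T : Th, 4 * 2⁻¹ ^ m * 2⁻¹ ^ wt T := by
          refine ENNReal.tsum_le_tsum fun T => ?_
          refine (good_ev_one ν hν hloc htouch S T (J + wt T) (large_mono hJ1 ?_)).trans ?_
          · have : J1 ≤ J := (le_max_left _ _).trans (le_max_right _ _)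
            omega
          · rw [pow_add, ← mul_assoc]
            refine mul_le_mul_left (mul_le_mul_right ?_ _) _
            exact pow_le_pow_of_le_one zero_le (by norm_num)
              ((le_max_right _ _).trans (le_max_right _ _))
      _ = 4 * 2⁻¹ ^ m * ∑' T : Th, (2⁻¹ : ℝ≥0∞) ^ wt T := ENNReal.tsum_mul_left
      _ ≤ 4 * 2⁻¹ ^ m * 4 := mul_le_mul_right tsum_wt _
      _ = 16 * 2⁻¹ ^ m := by
          rw [mul_comm (4 : ℝ≥0∞) (2⁻¹ ^ m), mul_assoc, mul_comm]
          norm_num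
  have h0 : Filter.Tendsto (fun m : ℕ => (16 : ℝ≥0∞) * 2⁻¹ ^ m) Filter.atTop (nhds 0) := by
    have h1 := ENNReal.tendsto_pow_atTop_nhds_zero_of_lt_one
      (r := (2⁻¹ : ℝ≥0∞)) (by norm_num)
    have h2 := ENNReal.Tendsto.const_mul (a := (16 : ℝ≥0∞)) h1 (Or.inr (by norm_num))
    simpa using h2
  exact le_antisymm (ge_of_tendsto' h0 hle) zero_le

/-- **Almost every oracle is good.** -/
theorem good_ae (hν : ∀ w : List Bool, ν (true :: w) {true} = 2⁻¹) (hloc : Loc)
    (htouch : Touch) (hlarge : ∀ k, ∃ J, Large k J) :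
    ∀ᵐ O ∂(Measure.infinitePi ν), Good O := by
  have hc : Countable Cmd := countable_cmd
  have h1 : ∀ᵐ O ∂(Measure.infinitePi ν), ∀ j s0, ∃ s, s0 ≤ s ∧ ∃ y : List Bool,
      y.length + 1 + j = 2 ^ (st s + 1) ∧ Bad O (st s) y :=
    ae_all_iff.2 fun j => good_bad ν hν j
  have h2 : ∀ᵐ O ∂(Measure.infinitePi ν), ∀ (S : Th) (J0 : ℕ),
      ∃ J, J0 ≤ J ∧ ∀ T : Th, ¬ Ev S T (J + wt T) O :=
    ae_all_iff.2 fun S => ae_all_iff.2 fun J0 => good_ev ν hν hloc htouch hlarge S J0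
  filter_upwards [h1, h2] with O hO1 hO2
  exact ⟨hO1, hO2⟩

end Pool.Agent.RO
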