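import Pool.Agent.Lib_helper87.RO.MeasDefs

/-!
# Random oracles: independence of events with disjoint finite supports
-/

set_option autoImplicit false

namespace Pool.Agent.ROM

open MeasureTheory ProbabilityTheory
open scoped ENNReal

variable {ι : Type}

theorem DepOn.iff {S : Finset ι} {F : (ι → Bool) → Prop} (h : DepOn S F) {ω ω' : ι → Bool}
    (hw : ∀ i ∈ S, ω i = ω' i) : F ω ↔ F ω' :=
  ⟨h ω ω' hw, h ω' ω fun i hi => (hw i hi).symm⟩

theorem DepOn.mono {S T : Finset ι} {F : (ι → Bool) → Prop} (h : DepOn S F) (hST : S ⊆ T) :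
    DepOn T F := fun ω ω' hw => h ω ω' fun i hi => hw i (hST hi)

theorem DepOn.not {S : Finset ι} {F : (ι → Bool) → Prop} (h : DepOn S F) :
    DepOn S (fun ω => ¬ F ω) := fun _ _ hw => mt (h.iff hw).2

theorem DepOn.and {S : Finset ι} {F G : (ι → Bool) → Prop} (hF : DepOn S F) (hG : DepOn S G) :
    DepOn S (fun ω => F ω ∧ G ω) := fun _ _ hw h => ⟨(hF.iff hw).1 h.1, (hG.iff hw).1 h.2⟩

theorem DepOn.exists {α : Sort*} {S : Finset ι} {F : α → (ι → Bool) → Prop}
    (hF : ∀ a, DepOn S (F a)) : DepOn S (fun ω => ∃ a, F a ω) :=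
  fun _ _ hw h => by
    obtain ⟨a, ha⟩ := h
    exact ⟨a, ((hF a).iff hw).1 ha⟩

theorem DepOn.forall {α : Sort*} {S : Finset ι} {F : α → (ι → Bool) → Prop}
    (hF : ∀ a, DepOn S (F a)) : DepOn S (fun ω => ∀ a, F a ω) :=
  fun _ _ hw h a => ((hF a).iff hw).1 (h a)

theorem DepOn.const {S : Finset ι} (p : Prop) : DepOn S (fun _ => p) := fun _ _ _ h => h

theorem depOn_full (S : Finset ι) : DepOn S (Full S) :=
  fun _ _ hw h i hi => (hw i hi).symm.trans (h i hi)

theorem DepOn.measurableSet {S : Finset ι} {F : (ι → Bool) → Prop} (h : DepOn S F) :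
    MeasurableSet {ω | F ω} := by
  have : {ω | F ω} = (fun (ω : ι → Bool) (i : S) => ω i) ⁻¹'
      {v | ∃ ω : ι → Bool, (∀ i : S, ω i = v i) ∧ F ω} := by
    ext ω
    simp only [Set.mem_ofPred_eq, Set.mem_preimage]
    constructor
    · intro hω
      exact ⟨ω, fun _ => rfl, hω⟩
    · rintro ⟨ω', h1, h2⟩
      exact h ω' ω (fun i hi => h1 ⟨i, hi⟩) h2
  rw [this]
  refine measurableSet_preimage (by fun_prop) ?_
  exact Set.Finite.measurableSet (Set.toFinite _)

variable (ν : ι → Measure Bool) [∀ i, IsProbabilityMeasure (ν i)]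

theorem indep {S T : Finset ι} (hd : Disjoint S T) {F G : (ι → Bool) → Prop}
    (hF : DepOn S F) (hG : DepOn T G) :
    Measure.infinitePi ν {ω | F ω ∧ G ω}
      = Measure.infinitePi ν {ω | F ω} * Measure.infinitePi ν {ω | G ω} := by
  have hI : iIndepFun (fun (i : ι) (ω : ι → Bool) => ω i) (Measure.infinitePi ν) :=
    iIndepFun_infinitePi (P := ν) (X := fun i (b : Bool) => b) (fun i => measurable_id)
  have hI2 := hI.indepFun_finset S T hd (fun i => measurable_pi_apply i)
  have hS : {ω : ι → Bool | F ω} = (fun (ω : ι → Bool) (i : S) => ω i) ⁻¹'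
      {v | ∃ ω : ι → Bool, (∀ i : S, ω i = v i) ∧ F ω} := by
    ext ω
    simp only [Set.mem_ofPred_eq, Set.mem_preimage]
    constructor
    · intro hω
      exact ⟨ω, fun _ => rfl, hω⟩
    · rintro ⟨ω', h1, h2⟩
      exact hF ω' ω (fun i hi => h1 ⟨i, hi⟩) h2
  have hT : {ω : ι → Bool | G ω} = (fun (ω : ι → Bool) (i : T) => ω i) ⁻¹'
      {v | ∃ ω : ι → Bool, (∀ i : T, ω i = v i) ∧ G ω} := by
    ext ω
    simp only [Set.mem_ofPred_eq, Set.mem_preimage]
    constructor
    · intro hω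
      exact ⟨ω, fun _ => rfl, hω⟩
    · rintro ⟨ω', h1, h2⟩
      exact hG ω' ω (fun i hi => h1 ⟨i, hi⟩) h2
  have : {ω : ι → Bool | F ω ∧ G ω} = {ω | F ω} ∩ {ω | G ω} := rfl
  rw [this, hS, hT]
  exact hI2.measure_inter_preimage_eq_mul _ _ (Set.Finite.measurableSet (Set.toFinite _))
    (Set.Finite.measurableSet (Set.toFinite _))

theorem measure_full {S : Finset ι} (hν : ∀ i ∈ S, ν i {true} = 2⁻¹) :
    Measure.infinitePi ν {ω | Full S ω} = 2⁻¹ ^ S.card := by
  have : {ω : ι → Bool | Full S ω} = Set.pi (S : Set ι) (fun _ => {true}) := by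
    ext ω
    simp [Full, Set.mem_pi]
  rw [this, Measure.infinitePi_pi (μ := ν) (fun i _ => measurableSet_singleton _),
    Finset.prod_congr rfl (fun i hi => hν i hi), Finset.prod_const]

theorem plant_of_full {S : Finset ι} {ω : ι → Bool} (h : Full S ω) : plant S ω = ω := by
  funext i
  unfold plant
  split_ifs with hi
  · exact (h i hi).symm
  · rfl

/-- **Planting lemma.** -/
theorem planting [DecidableEq ι] {S T : Finset ι} (hν : ∀ i ∈ S, ν i {true} = 2⁻¹)
    {F : (ι → Bool) → Prop} (hF : DepOn T F) :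
    Measure.infinitePi ν {ω | Full S ω ∧ F ω}
      = 2⁻¹ ^ S.card * Measure.infinitePi ν {ω | F (plant S ω)} := by
  have h1 : {ω : ι → Bool | Full S ω ∧ F ω} = {ω | Full S ω ∧ F (plant S ω)} := by
    ext ω
    simp only [Set.mem_ofPred_eq]
    constructor
    · rintro ⟨h, h'⟩
      rw [plant_of_full h]
      exact ⟨h, h'⟩
    · rintro ⟨h, h'⟩
      rw [plant_of_full h] at h'
      exact ⟨h, h'⟩
  have h2 : DepOn (T \ S) (fun ω => F (plant S ω)) := by
    intro ω ω' hw
    refine (hF.iff ?_).1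
    intro i hi
    unfold plant
    split_ifs with hS
    · rfl
    · exact hw i (Finset.mem_sdiff.2 ⟨hi, hS⟩)
  rw [h1, indep ν Finset.disjoint_sdiff (depOn_full S) h2, measure_full ν hν]

end Pool.Agent.ROM
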