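import Pool.Agent.Lib_helper87.RO.MeasA

/-!
# Random oracles: the betting lemma
-/

set_option autoImplicit false

namespace Pool.Agent.ROM

open MeasureTheory ProbabilityTheory
open scoped ENNReal

variable {ι : Type}

theorem card_touch [DecidableEq ι] {N : ℕ} (blk : Fin N → Finset ι)
    (hd : Pairwise fun y y' => Disjoint (blk y) (blk y')) (Q : Finset ι) :
    (Finset.univ.filter fun y => ¬ Disjoint Q (blk y)).card ≤ Q.card := by
  classical
  rcases isEmpty_or_nonempty ι with hι | hι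
  · have : ∀ y, Disjoint Q (blk y) := fun y => by
      rw [Finset.disjoint_left]
      exact fun i => (hι.false i).elim
    simp [this]
  have h : ∀ y, ¬ Disjoint Q (blk y) → ∃ i, i ∈ Q ∧ i ∈ blk y := by
    intro y hy
    rw [Finset.not_disjoint_iff] at hy
    exact hy
  choose! f hf using h
  refine Finset.card_le_card_of_injOn f ?_ ?_
  · intro y hy
    have : ¬ Disjoint Q (blk y) := by simpa using hy
    exact (hf y this).1
  · intro y hy y' hy' hff
    have h1 : ¬ Disjoint Q (blk y) := by simpa using hy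
    have h2 : ¬ Disjoint Q (blk y') := by simpa using hy'
    by_contra hne
    have : Disjoint (blk y) (blk y') := hd hne
    rw [Finset.disjoint_left] at this
    exact this (hf y h1).2 (hff ▸ (hf y' h2).2)

theorem plant_eq_of_disjoint {S Q : Finset ι} (h : Disjoint Q S) (ω : ι → Bool) :
    ∀ i ∈ Q, ω i = plant S ω i := by
  intro i hi
  unfold plant
  rw [if_neg (Finset.disjoint_left.1 h hi)]

variable (ν : ι → Measure Bool) [∀ i, IsProbabilityMeasure (ν i)]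

/-- the sum over `y` of the probabilities that the certificate of `A` is destroyed by `y` -/
theorem sum_destroy [DecidableEq ι] {N q : ℕ} (blk : Fin N → Finset ι)
    (hd : Pairwise fun y y' => Disjoint (blk y) (blk y')) {T : Finset ι}
    {A : (ι → Bool) → Prop} (hA : DepOn T A)
    (hcert : ∀ ω, A ω → ∃ Q : Finset ι, Q.card ≤ q ∧ ∀ ω', (∀ i ∈ Q, ω i = ω' i) → A ω') :
    ∑ y, Measure.infinitePi ν {ω | A ω ∧ ¬ A (plant (blk y) ω)} ≤ (q : ℝ≥0∞) := by
  classical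
  have hm : ∀ y, MeasurableSet {ω : ι → Bool | A ω ∧ ¬ A (plant (blk y) ω)} := by
    intro y
    have h1 : DepOn T (fun ω => ¬ A (plant (blk y) ω)) := by
      intro ω ω' hw
      refine mt (hA.iff ?_).2
      intro i hi
      unfold plant
      split_ifs
      · rfl
      · exact hw i hi
    exact (hA.and h1).measurableSet
  calc ∑ y, Measure.infinitePi ν {ω | A ω ∧ ¬ A (plant (blk y) ω)}
      = ∑ y, ∫⁻ ω, ({ω | A ω ∧ ¬ A (plant (blk y) ω)} : Set (ι → Bool)).indicator 1 ω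
          ∂(Measure.infinitePi ν) := by
        refine Finset.sum_congr rfl fun y _ => ?_
        rw [lintegral_indicator_one (hm y)]
    _ = ∫⁻ ω, ∑ y, ({ω | A ω ∧ ¬ A (plant (blk y) ω)} : Set (ι → Bool)).indicator 1 ω
          ∂(Measure.infinitePi ν) := by
        rw [lintegral_finsetSum]
        intro y _
        exact measurable_one.indicator (hm y)
    _ ≤ ∫⁻ _, (q : ℝ≥0∞) ∂(Measure.infinitePi ν) := by
        refine lintegral_mono fun ω => ?_
        by_cases hω : A ω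
        · obtain ⟨Q, hQ, hQ'⟩ := hcert ω hω
          have hle : ∀ y, ({ω | A ω ∧ ¬ A (plant (blk y) ω)} : Set (ι → Bool)).indicator
              (1 : (ι → Bool) → ℝ≥0∞) ω ≤ if ¬ Disjoint Q (blk y) then 1 else 0 := by
            intro y
            by_cases hy : Disjoint Q (blk y)
            · rw [if_neg (not_not.2 hy), Set.indicator_of_notMem]
              rintro ⟨-, h2⟩
              exact h2 (hQ' _ (plant_eq_of_disjoint hy ω))
            · rw [if_pos hy]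
              exact Set.indicator_le_self' (fun _ _ => zero_le) ω
          refine (Finset.sum_le_sum fun y _ => hle y).trans ?_
          rw [Finset.sum_boole]
          exact_mod_cast (card_touch blk hd Q).trans hQ
        · have : ∀ y, ({ω | A ω ∧ ¬ A (plant (blk y) ω)} : Set (ι → Bool)).indicator
              (1 : (ι → Bool) → ℝ≥0∞) ω = 0 := by
            intro y
            rw [Set.indicator_of_notMem]
            rintro ⟨h1, -⟩
            exact hω h1
          simp [this]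
    _ = q := by simp

/-- one level, one stage -/
theorem betting_one [DecidableEq ι] {n j q s : ℕ} (blk : Fin (2 ^ n) → Finset ι)
    (hd : Pairwise fun y y' => Disjoint (blk y) (blk y'))
    (hcard : ∀ y, (blk y).card = n + j) (hν : ∀ y, ∀ i ∈ blk y, ν i {true} = 2⁻¹)
    {T : Finset ι} {A : (ι → Bool) → Prop} (hA : DepOn T A)
    (hcert : ∀ ω, A ω → ∃ Q : Finset ι, Q.card ≤ q ∧ ∀ ω', (∀ i ∈ Q, ω i = ω' i) → A ω')
    {U : Finset ι} {G : (ι → Bool) → Prop} (hG : DepOn U G) (hU : ∀ y, Disjoint U (blk y))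
    (hq : q * 2 ^ (s + 2) ≤ 2 ^ n) :
    Measure.infinitePi ν {ω | G ω ∧ (∃ y, Full (blk y) ω) ∧ ¬ A ω}
      ≤ 2⁻¹ ^ j * (Measure.infinitePi ν {ω | G ω ∧ ¬ A ω} + 2⁻¹ ^ (s + 2)) := by
  classical
  set μ := Measure.infinitePi ν with hμ
  have h2 : (2 : ℝ≥0∞) ≠ 0 := by norm_num
  have h2' : (2 : ℝ≥0∞) ≠ ∞ := by norm_num
  have hGA : DepOn (U ∪ T) (fun ω => G ω ∧ ¬ A ω) :=
    (hG.mono Finset.subset_union_left).and (hA.mono Finset.subset_union_right).not
  calc μ {ω | G ω ∧ (∃ y, Full (blk y) ω) ∧ ¬ A ω}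
      ≤ μ (⋃ y, {ω | Full (blk y) ω ∧ (G ω ∧ ¬ A ω)}) := by
        refine measure_mono ?_
        rintro ω ⟨h1, ⟨y, hy⟩, h3⟩
        exact Set.mem_iUnion.2 ⟨y, hy, h1, h3⟩
    _ ≤ ∑ y, μ {ω | Full (blk y) ω ∧ (G ω ∧ ¬ A ω)} := measure_iUnion_fintype_le _ _
    _ = ∑ y, 2⁻¹ ^ (n + j) * μ {ω | G (plant (blk y) ω) ∧ ¬ A (plant (blk y) ω)} := by
        refine Finset.sum_congr rfl fun y _ => ?_
        rw [planting ν (hν y) hGA, hcard]
    _ ≤ ∑ y, 2⁻¹ ^ (n + j) * (μ {ω | G ω ∧ ¬ A ω} + μ {ω | A ω ∧ ¬ A (plant (blk y) ω)}) := by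
        refine Finset.sum_le_sum fun y _ => mul_le_mul_right ?_ _
        refine (measure_mono ?_).trans (measure_union_le _ _)
        rintro ω ⟨h1, h3⟩
        have hg : G ω := (hG.iff (plant_eq_of_disjoint (hU y) ω)).2 h1
        by_cases hω : A ω
        · exact Or.inr ⟨hω, h3⟩
        · exact Or.inl ⟨hg, hω⟩
    _ = 2⁻¹ ^ (n + j) * (2 ^ n * μ {ω | G ω ∧ ¬ A ω}
          + ∑ y, μ {ω | A ω ∧ ¬ A (plant (blk y) ω)}) := by
        rw [← Finset.mul_sum, Finset.sum_add_distrib, Finset.sum_const, Finset.card_univ,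
          Fintype.card_fin, nsmul_eq_mul]
        push_cast
        rfl
    _ ≤ 2⁻¹ ^ (n + j) * (2 ^ n * μ {ω | G ω ∧ ¬ A ω} + 2 ^ n * 2⁻¹ ^ (s + 2)) := by
        refine mul_le_mul_right (add_le_add_right ?_ _) _
        refine (sum_destroy ν blk hd hA hcert).trans ?_
        have h3 : ((q * 2 ^ (s + 2) : ℕ) : ℝ≥0∞) ≤ ((2 ^ n : ℕ) : ℝ≥0∞) := by exact_mod_cast hq
        push_cast at h3
        calc (q : ℝ≥0∞) = (q * 2 ^ (s + 2)) * 2⁻¹ ^ (s + 2) := by
              rw [mul_assoc, ← mul_pow, ENNReal.mul_inv_cancel h2 h2', one_pow, mul_one]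
          _ ≤ 2 ^ n * 2⁻¹ ^ (s + 2) := mul_le_mul_left h3 _
    _ = 2⁻¹ ^ j * (μ {ω | G ω ∧ ¬ A ω} + 2⁻¹ ^ (s + 2)) := by
        rw [← mul_add, pow_add]
        calc (2⁻¹ : ℝ≥0∞) ^ n * 2⁻¹ ^ j * (2 ^ n * (μ {ω | G ω ∧ ¬ A ω} + 2⁻¹ ^ (s + 2)))
            = (2⁻¹ ^ n * 2 ^ n) * (2⁻¹ ^ j * (μ {ω | G ω ∧ ¬ A ω} + 2⁻¹ ^ (s + 2))) := by ring
          _ = _ := by
            rw [← mul_pow, ENNReal.inv_mul_cancel h2 h2', one_pow, one_mul]

/-- **The betting lemma.** `A s`: the opponent commits at stage `s`.  The player bets at level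
`j` on the blocks `blk s j y` from stage `j` on, as long as the opponent commits.  With high
probability no bet is lost at a stage at which the opponent does not commit. -/
theorem betting [DecidableEq ι] (A : ℕ → (ι → Bool) → Prop) (K : ℕ → Finset ι)
    (n : ℕ → ℕ → ℕ) (blk : (s j : ℕ) → Fin (2 ^ n s j) → Finset ι) (q : ℕ → ℕ) (j0 : ℕ)
    (hA : ∀ s, j0 ≤ s → DepOn (K s) (A s))
    (hK : ∀ s j s' y, j0 ≤ j → j ≤ s → j ≤ s' → s' < s → Disjoint (K s') (blk s j y))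
    (hcert : ∀ s, j0 ≤ s → ∀ ω, A s ω →
      ∃ Q : Finset ι, Q.card ≤ q s ∧ ∀ ω', (∀ i ∈ Q, ω i = ω' i) → A s ω')
    (hd : ∀ s j, j0 ≤ j → j ≤ s → Pairwise fun y y' => Disjoint (blk s j y) (blk s j y'))
    (hcard : ∀ s j y, j0 ≤ j → j ≤ s → (blk s j y).card = n s j + j)
    (hν : ∀ s j y, j0 ≤ j → j ≤ s → ∀ i ∈ blk s j y, ν i {true} = 2⁻¹)
    (hq : ∀ s j, j0 ≤ j → j ≤ s → q s * 2 ^ (s + 2) ≤ 2 ^ n s j) :
    Measure.infinitePi ν {ω | ∃ j, j0 ≤ j ∧ ∃ s, j ≤ s ∧ (∀ s', j ≤ s' → s' < s → A s' ω) ∧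
      (∃ y, Full (blk s j y) ω) ∧ ¬ A s ω} ≤ 4 * 2⁻¹ ^ j0 := by
  classical
  set μ := Measure.infinitePi ν with hμ
  have h2 : (2 : ℝ≥0∞) ≠ 0 := by norm_num
  have h2' : (2 : ℝ≥0∞) ≠ ∞ := by norm_num
  let G : ℕ → ℕ → (ι → Bool) → Prop := fun j s ω => ∀ s', j ≤ s' → s' < s → A s' ω
  have hG : ∀ j s, j0 ≤ j → DepOn ((Finset.Ico j s).biUnion K) (G j s) := by
    intro j s hj
    refine DepOn.forall fun s' => ?_
    intro ω ω' hw h h1 h3
    refine ((hA s' (hj.trans h1)).iff ?_).1 (h h1 h3)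
    intro i hi
    exact hw i (Finset.mem_biUnion.2 ⟨s', Finset.mem_Ico.2 ⟨h1, h3⟩, hi⟩)
  have hone : ∀ j s, j0 ≤ j → j ≤ s →
      μ {ω | G j s ω ∧ (∃ y, Full (blk s j y) ω) ∧ ¬ A s ω}
        ≤ 2⁻¹ ^ j * (μ {ω | G j s ω ∧ ¬ A s ω} + 2⁻¹ ^ (s + 2)) := by
    intro j s hj hs
    refine betting_one ν (blk s j) (hd s j hj hs) (fun y => hcard s j y hj hs)
      (fun y => hν s j y hj hs) (hA s (hj.trans hs)) (hcert s (hj.trans hs)) (hG j s hj) ?_
      (hq s j hj hs)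
    intro y
    rw [Finset.disjoint_biUnion_left]
    intro s' hs'
    rw [Finset.mem_Ico] at hs'
    exact hK s j s' y hj hs hs'.1 hs'.2
  have hgeom : ∑' a : ℕ, (2⁻¹ : ℝ≥0∞) ^ a = 2 := by
    rw [ENNReal.tsum_geometric, ENNReal.one_sub_inv_two, inv_inv]
  have hdis : ∀ j, j0 ≤ j → ∑' b : ℕ, μ {ω | G j (j + b) ω ∧ ¬ A (j + b) ω} ≤ 1 := by
    intro j hj
    have hmeas : ∀ b : ℕ, MeasurableSet {ω | G j (j + b) ω ∧ ¬ A (j + b) ω} := by
      intro b
      have h1 := (hG j (j + b) hj).mono (Finset.subset_union_left (s₂ := K (j + b)))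
      have h3 := (hA (j + b) (hj.trans (Nat.le_add_right _ _))).mono
        (Finset.subset_union_right (s₁ := (Finset.Ico j (j + b)).biUnion K))
      exact (h1.and h3.not).measurableSet
    have hpw : Pairwise (Function.onFun Disjoint
        fun b : ℕ => {ω | G j (j + b) ω ∧ ¬ A (j + b) ω}) := by
      intro b b' hne
      rw [Function.onFun, Set.disjoint_left]
      rintro ω ⟨h1, h3⟩ ⟨h4, h5⟩
      rcases lt_or_gt_of_ne hne with hlt | hlt
      · exact h3 (h4 (j + b) (Nat.le_add_right _ _) (by omega))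
      · exact h5 (h1 (j + b') (Nat.le_add_right _ _) (by omega))
    rw [← measure_iUnion hpw hmeas]
    exact prob_le_one
  calc μ {ω | ∃ j, j0 ≤ j ∧ ∃ s, j ≤ s ∧ (∀ s', j ≤ s' → s' < s → A s' ω) ∧
      (∃ y, Full (blk s j y) ω) ∧ ¬ A s ω}
      ≤ μ (⋃ a : ℕ, ⋃ b : ℕ, {ω | G (j0 + a) (j0 + a + b) ω ∧
          (∃ y, Full (blk (j0 + a + b) (j0 + a) y) ω) ∧ ¬ A (j0 + a + b) ω}) := by
        refine measure_mono ?_
        rintro ω ⟨j, hj, s, hs, h1, h3, h4⟩
        obtain ⟨a, rfl⟩ := Nat.exists_eq_add_of_le hj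
        obtain ⟨b, rfl⟩ := Nat.exists_eq_add_of_le hs
        exact Set.mem_iUnion.2 ⟨a, Set.mem_iUnion.2 ⟨b, h1, h3, h4⟩⟩
    _ ≤ ∑' a : ℕ, ∑' b : ℕ, μ {ω | G (j0 + a) (j0 + a + b) ω ∧
          (∃ y, Full (blk (j0 + a + b) (j0 + a) y) ω) ∧ ¬ A (j0 + a + b) ω} :=
        (measure_iUnion_le _).trans (ENNReal.tsum_le_tsum fun a => measure_iUnion_le _)
    _ ≤ ∑' a : ℕ, 2⁻¹ ^ (j0 + a) * 2 := by
        refine ENNReal.tsum_le_tsum fun a => ?_
        calc ∑' b : ℕ, μ {ω | G (j0 + a) (j0 + a + b) ω ∧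
              (∃ y, Full (blk (j0 + a + b) (j0 + a) y) ω) ∧ ¬ A (j0 + a + b) ω}
            ≤ ∑' b : ℕ, 2⁻¹ ^ (j0 + a) * (μ {ω | G (j0 + a) (j0 + a + b) ω ∧
              ¬ A (j0 + a + b) ω} + 2⁻¹ ^ (b + 1)) := by
              refine ENNReal.tsum_le_tsum fun b => ?_
              refine (hone (j0 + a) (j0 + a + b) (Nat.le_add_right _ _)
                (Nat.le_add_right _ _)).trans ?_
              refine mul_le_mul_right (add_le_add_right ?_ _) _
              exact pow_le_pow_of_le_one zero_le (by norm_num) (by omega)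
          _ = 2⁻¹ ^ (j0 + a) * (∑' b : ℕ, μ {ω | G (j0 + a) (j0 + a + b) ω ∧
              ¬ A (j0 + a + b) ω} + ∑' b : ℕ, 2⁻¹ ^ (b + 1)) := by
              rw [ENNReal.tsum_mul_left, ENNReal.tsum_add]
          _ ≤ 2⁻¹ ^ (j0 + a) * (1 + 1) := by
              refine mul_le_mul_right (add_le_add (hdis _ (Nat.le_add_right _ _)) ?_) _
              simp_rw [pow_succ]
              rw [ENNReal.tsum_mul_right, hgeom, ENNReal.mul_inv_cancel h2 h2']
          _ = 2⁻¹ ^ (j0 + a) * 2 := by norm_num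
    _ = 4 * 2⁻¹ ^ j0 := by
        simp_rw [pow_add]
        rw [ENNReal.tsum_mul_right, ENNReal.tsum_mul_left, hgeom]
        ring_nf

end Pool.Agent.ROM
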