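import Mathlib

/-!
# Random oracles: the betting lemma (abstract form)
-/

set_option autoImplicit false

namespace Pool.Agent.ROM

open MeasureTheory ProbabilityTheory
open scoped ENNReal

variable {ι : Type}

/-- the property `F` of the oracle depends only on the coordinates in `S` -/
def DepOn (S : Finset ι) (F : (ι → Bool) → Prop) : Prop :=
  ∀ ω ω' : ι → Bool, (∀ i ∈ S, ω i = ω' i) → F ω → F ω'

/-- all coordinates in `S` are `true` -/
def Full (S : Finset ι) (ω : ι → Bool) : Prop := ∀ i ∈ S, ω i = true

open Classical in
/-- fill the block `S` -/
noncomputable def plant (S : Finset ι) (ω : ι → Bool) : ι → Bool :=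
  fun i => if i ∈ S then true else ω i

end Pool.Agent.ROM
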